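import Pool.Agent.H76.CP.Form

/-!
# A Chen type theorem for families of polynomials on the lines x + y = n
-/

set_option autoImplicit false

namespace Pool.Agent.Results.MP_0da313_nt.ChenOnLines

open Finset Polynomial Pool.Agent.H76.CL Pool.Agent.H76.CP

/-- the restriction of `f` to the line `x + y = n` -/
noncomputable def onLine (f : MvPolynomial (Fin 2) ℤ) (n : ℤ) : ℤ[X] := MvPolynomial.aeval ![X, C n - X] f

theorem eval_onLine (f : MvPolynomial (Fin 2) ℤ) (n x : ℤ) :
    (onLine f n).eval x = MvPolynomial.eval ![x, n - x] f := by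
  unfold onLine
  induction f using MvPolynomial.induction_on with
  | C a => simp
  | add p q hp hq => rw [map_add, eval_add, hp, hq, map_add]
  | mul_X p i hp =>
    rw [map_mul, eval_mul, hp, map_mul, MvPolynomial.aeval_X, MvPolynomial.eval_X]
    congr 1
    fin_cases i
    · simp
    · simp

theorem onLine_size (f : MvPolynomial (Fin 2) ℤ) : ∃ K : ℕ, ∀ n : ℕ, 2 ≤ n → (onLine f n).natDegree ≤ K ∧
    ∀ i, |(onLine f n).coeff i| ≤ (n : ℤ) ^ K := by
  unfold onLine
  induction f using MvPolynomial.induction_on with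
  | C a =>
    refine ⟨a.natAbs, fun n hn => ⟨?_, fun i => ?_⟩⟩
    · have e : (MvPolynomial.aeval ![X, C (n : ℤ) - X] (MvPolynomial.C a) : ℤ[X]) = C a := by simp
      rw [e, natDegree_C]
      exact Nat.zero_le _
    · have e : (MvPolynomial.aeval ![X, C (n : ℤ) - X] (MvPolynomial.C a) : ℤ[X]) = C a := by simp
      rw [e, coeff_C]
      have h1 : (a.natAbs : ℤ) ≤ (n : ℤ) ^ a.natAbs := by
        have h2 : a.natAbs ≤ n ^ a.natAbs := (Nat.lt_pow_self (by omega)).le
        exact_mod_cast h2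
      split_ifs
      · rw [Int.abs_eq_natAbs]
        exact h1
      · rw [abs_zero]
        positivity
  | add p q hp hq =>
    obtain ⟨K₁, h1⟩ := hp
    obtain ⟨K₂, h2⟩ := hq
    refine ⟨K₁ + K₂ + 1, fun n hn => ⟨?_, fun i => ?_⟩⟩
    · rw [map_add]
      refine (natDegree_add_le _ _).trans ?_
      have := (h1 n hn).1
      have := (h2 n hn).1
      omega
    · rw [map_add, coeff_add]
      have hn1 : (1 : ℤ) ≤ n := by exact_mod_cast (by omega : 1 ≤ n)
      have hn2 : (2 : ℤ) ≤ n := by exact_mod_cast hn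
      have a1 := (h1 n hn).2 i
      have a2 := (h2 n hn).2 i
      have b1 : (n : ℤ) ^ K₁ ≤ (n : ℤ) ^ (K₁ + K₂) := pow_le_pow_right₀ hn1 (by omega)
      have b2 : (n : ℤ) ^ K₂ ≤ (n : ℤ) ^ (K₁ + K₂) := pow_le_pow_right₀ hn1 (by omega)
      have b3 : (0 : ℤ) ≤ (n : ℤ) ^ (K₁ + K₂) := by positivity
      rw [pow_succ]
      refine (abs_add_le _ _).trans ?_
      nlinarith
  | mul_X p i hp =>
    obtain ⟨K, h1⟩ := hp
    refine ⟨K + 2, fun n hn => ⟨?_, fun j => ?_⟩⟩
    · rw [map_mul, MvPolynomial.aeval_X]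
      refine natDegree_mul_le.trans ?_
      have h2 : ((![X, C (n : ℤ) - X] : Fin 2 → ℤ[X]) i).natDegree ≤ 1 := by
        fin_cases i
        · exact natDegree_X_le
        · refine (natDegree_sub_le _ _).trans ?_
          rw [natDegree_C]
          exact max_le (Nat.zero_le _) natDegree_X_le
      have := (h1 n hn).1
      omega
    · have hn1 : (1 : ℤ) ≤ n := by exact_mod_cast (by omega : 1 ≤ n)
      have hn2 : (2 : ℤ) ≤ n := by exact_mod_cast hn
      set P : ℤ[X] := MvPolynomial.aeval ![X, C (n : ℤ) - X] p with hP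
      have hpos : (0 : ℤ) ≤ (n : ℤ) ^ K := by positivity
      have hX : ∀ j, |(P * X).coeff j| ≤ (n : ℤ) ^ K := by
        intro j
        rcases j with _ | j
        · rw [mul_coeff_zero, coeff_X_zero, mul_zero, abs_zero]
          exact hpos
        · rw [coeff_mul_X]
          exact (h1 n hn).2 j
      rw [map_mul, MvPolynomial.aeval_X]
      have e2 : (n : ℤ) ^ (K + 2) = (n : ℤ) ^ K * (n * n) := by ring
      have e3 : (n : ℤ) ^ K * (n + 1) ≤ (n : ℤ) ^ K * (n * n) := mul_le_mul_of_nonneg_left (by nlinarith) hpos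
      fin_cases i
      · have := hX j
        show |(P * X).coeff j| ≤ _
        rw [e2]
        nlinarith
      · show |(P * (C (n : ℤ) - X)).coeff j| ≤ _
        rw [mul_sub, coeff_sub, coeff_mul_C, e2]
        have h3 := hX j
        have h4 := (h1 n hn).2 j
        have h5 : |P.coeff j * (n : ℤ)| ≤ (n : ℤ) ^ K * n := by
          rw [abs_mul, Nat.abs_cast]
          exact mul_le_mul_of_nonneg_right h4 (by positivity)
        refine (abs_sub _ _).trans ?_
        nlinarith

theorem onLine_linear {f : MvPolynomial (Fin 2) ℤ} {a b c : ℤ}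
    (h : f = MvPolynomial.C a * MvPolynomial.X 0 + MvPolynomial.C b * MvPolynomial.X 1 + MvPolynomial.C c) (n : ℤ) :
    onLine f n = C (a - b) * X + C (b * n + c) := by
  unfold onLine
  rw [h]
  simp only [map_add, map_mul, MvPolynomial.aeval_X, map_sub]
  simp
  ring

/-- **A Chen type theorem on the lines `x + y = n`.**  Let `f₁, ..., fₘ` be integer polynomials in two variables such
that, for all large `n`, the polynomials `f_k(x, n - x)` are irreducible and no prime divides their product for all `x`.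
Let `f_i` and `f_j` be linear and not equal up to sign.  Then there are `c, ε > 0` and `r` such that for all large `n`
there are at least `c S n / (log n) ^ m` integers `0 < x < n` for which `|f_i(x, n - x)|` is a prime, `|f_j(x, n - x)|`
is a prime or a product of two primes, both `≥ n ^ (1 / 10)`, and all the `|f_k(x, n - x)|` have at most `r` prime
factors, all of them `≥ n ^ ε`.  Here `S > 0` is the product of `(1 - w(p) / p) / (1 - 1 / p) ^ m` over the primes
`p ≤ n`, with `w(p)` the number of the zeros of the product of the `f_k(x, n - x)` modulo `p`. -/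
theorem result : ∀ (m : ℕ) (f : Fin m → MvPolynomial (Fin 2) ℤ),
    (∃ N₀ : ℕ, ∀ n : ℕ, N₀ ≤ n →
      (∀ k, Irreducible (MvPolynomial.aeval ![X, C (n : ℤ) - X] (f k) : ℤ[X])) ∧
      ∀ p : ℕ, p.Prime → ¬ ∀ x : ℤ, (p : ℤ) ∣ ∏ k, MvPolynomial.eval ![x, (n : ℤ) - x] (f k)) →
    ∀ i j : Fin m, ∀ a b c a' b' c' : ℤ,
      f i = MvPolynomial.C a * MvPolynomial.X 0 + MvPolynomial.C b * MvPolynomial.X 1 + MvPolynomial.C c →
      f j = MvPolynomial.C a' * MvPolynomial.X 0 + MvPolynomial.C b' * MvPolynomial.X 1 + MvPolynomial.C c' →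
      f i ≠ f j → f i ≠ -f j →
    ∃ δ ε : ℝ, 0 < δ ∧ 0 < ε ∧ ∃ r N : ℕ, ∀ n : ℕ, N ≤ n →
      0 < ∏ p ∈ (Icc 1 n).filter Nat.Prime,
        (1 - (((range p).filter (fun x : ℕ =>
          (p : ℤ) ∣ ∏ k, MvPolynomial.eval ![(x : ℤ), (n : ℤ) - x] (f k))).card : ℝ) / p) / (1 - 1 / (p : ℝ)) ^ m ∧
      δ * (∏ p ∈ (Icc 1 n).filter Nat.Prime,
        (1 - (((range p).filter (fun x : ℕ =>
          (p : ℤ) ∣ ∏ k, MvPolynomial.eval ![(x : ℤ), (n : ℤ) - x] (f k))).card : ℝ) / p) / (1 - 1 / (p : ℝ)) ^ m) *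
          (n / Real.log n ^ m) ≤
        ({x : ℕ | 0 < x ∧ x < n ∧ (MvPolynomial.eval ![(x : ℤ), (n : ℤ) - x] (f i)).natAbs.Prime ∧
          (MvPolynomial.eval ![(x : ℤ), (n : ℤ) - x] (f j)).natAbs.primeFactorsList.length ≤ 2 ∧
          (∀ q ∈ (MvPolynomial.eval ![(x : ℤ), (n : ℤ) - x] (f j)).natAbs.primeFactors,
            (n : ℝ) ^ (1 / 10 : ℝ) ≤ q) ∧
          ∀ k, (MvPolynomial.eval ![(x : ℤ), (n : ℤ) - x] (f k)).natAbs.primeFactorsList.length ≤ r ∧
            ∀ q ∈ (MvPolynomial.eval ![(x : ℤ), (n : ℤ) - x] (f k)).natAbs.primeFactors,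
              (n : ℝ) ^ ε ≤ q}.ncard : ℝ) := by
  classical
  intro m f hadm i j a b c a' b' c' hi hj hij hij'
  obtain ⟨N₀, hN₀⟩ := hadm
  choose Kf hKf using fun k => onLine_size (f k)
  set K₀ : ℕ := ∑ k, Kf k with hK₀
  have hKk : ∀ k, Kf k ≤ K₀ := fun k => single_le_sum (f := Kf) (fun _ _ => Nat.zero_le _) (mem_univ k)
  set K₁ : ℕ := (a - b).natAbs + (a' - b').natAbs + 2 * b.natAbs + c.natAbs + 2 * b'.natAbs + c'.natAbs + 1 with hK₁
  set K : ℕ := 2 * K₀ + K₁ with hK
  obtain ⟨ε, κ, hε0, hκ, r, B₀, hB₀⟩ := chen_poly (K₀ + 2) K (by omega) (by omega) (1 / 2) (by norm_num)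
  obtain ⟨κ', hκ', hform⟩ := sing_T m
  obtain ⟨B₁, hB₁⟩ := pw_low (by norm_num : (0 : ℝ) < 1 / 2) (1 / 10) (1 / 9) (by norm_num) (by norm_num)
  obtain ⟨B₂, hB₂⟩ := pw_low (by norm_num : (0 : ℝ) < 1 / 2) (ε / 2) ε (by positivity) (by linarith)
  refine ⟨κ / 2 * κ', ε / 2, by positivity, by positivity, r,
    N₀ + B₀ + B₁ + B₂ + (c.natAbs + c'.natAbs) + 10, ?_⟩
  intro n hn
  obtain ⟨hirr, hloc⟩ := hN₀ n (by omega)
  have hev : ∀ k (x : ℤ), MvPolynomial.eval ![x, (n : ℤ) - x] (f k) = (onLine (f k) n).eval x := fun k x =>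
    (eval_onLine (f k) n x).symm
  set F : Finset ℤ[X] := univ.image (fun k => onLine (f k) n) with hF
  have hmem : ∀ k, onLine (f k) n ∈ F := fun k => mem_image_of_mem _ (mem_univ _)
  set B : ℕ := n - 1 with hB
  have hnB : n = B + 1 := by omega
  have hB9 : 9 ≤ B := by omega
  have hBz : (9 : ℤ) ≤ B := by exact_mod_cast hB9
  -- local conditions
  have hloc' : ∀ p : ℕ, p.Prime → ∃ x : ℤ, ∀ k, ¬ (p : ℤ) ∣ (onLine (f k) n).eval x := by
    intro p hp
    have h1 := hloc p hp
    push Not at h1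
    obtain ⟨x, hx⟩ := h1
    refine ⟨x, fun k hd => hx ?_⟩
    rw [← hev] at hd
    exact hd.trans (dvd_prod_of_mem (fun k => MvPolynomial.eval ![x, (n : ℤ) - x] (f k)) (mem_univ k))
  have hPA : PAdm F := by
    intro p hp
    obtain ⟨x, hx⟩ := hloc' p hp
    refine ⟨x, fun h hh => ?_⟩
    rw [hF, mem_image] at hh
    obtain ⟨k, -, rfl⟩ := hh
    exact hx k
  -- the linear polynomials
  have hlin : ∀ (k : Fin m) (u v w : ℤ), onLine (f k) n = C (u - v) * X + C (v * (n : ℤ) + w) → u ≠ v := by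
    intro k u v w h1 huv
    rw [huv, sub_self, C_0, zero_mul, zero_add] at h1
    have h2 : Irreducible (onLine (f k) n) := hirr k
    have h3 : (v * (n : ℤ) + w).natAbs ≠ 1 := by
      intro h4
      apply h2.not_isUnit
      rw [h1, isUnit_C, Int.isUnit_iff_natAbs_eq]
      exact h4
    obtain ⟨p, hp, hd⟩ := Nat.exists_prime_and_dvd h3
    obtain ⟨x, hx⟩ := hloc' p hp
    apply hx k
    rw [h1, eval_C]
    exact Int.natCast_dvd.2 hd
  have hoi := onLine_linear hi (n : ℤ)
  have hoj := onLine_linear hj (n : ℤ)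
  have hab := hlin i a b c hoi
  have hab' := hlin j a' b' c' hoj
  have hdeg1 : ∀ (u v : ℤ), u ≠ 0 → (C u * X + C v : ℤ[X]).natDegree = 1 := by
    intro u v hu
    exact natDegree_linear hu
  have hco1 : ∀ (u v : ℤ), (C u * X + C v : ℤ[X]).coeff 1 = u := by
    intro u v
    rw [coeff_add, coeff_C_mul, coeff_X_one, mul_one, coeff_C_succ, add_zero]
  have hco0 : ∀ (u v : ℤ), (C u * X + C v : ℤ[X]).coeff 0 = v := by
    intro u v
    simp
  have hdi : (onLine (f i) n).natDegree = 1 := by rw [hoi]; exact hdeg1 _ _ (sub_ne_zero.2 hab)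
  have hdj : (onLine (f j) n).natDegree = 1 := by rw [hoj]; exact hdeg1 _ _ (sub_ne_zero.2 hab')
  have hn1 : (c.natAbs : ℤ) + c'.natAbs + 10 ≤ n := by
    exact_mod_cast (by omega : c.natAbs + c'.natAbs + 10 ≤ n)
  have hca : |c| = (c.natAbs : ℤ) := Int.abs_eq_natAbs c
  have hca' : |c'| = (c'.natAbs : ℤ) := Int.abs_eq_natAbs c'
  have key : ∀ u w : ℤ, |w| ≤ |c| + |c'| → u * (n : ℤ) + w = 0 → u = 0 ∧ w = 0 := by
    intro u w hw h0
    by_cases hu : u = 0
    · refine ⟨hu, ?_⟩
      rw [hu] at h0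
      linarith
    · exfalso
      have h1 : (1 : ℤ) ≤ |u| := Int.one_le_abs hu
      have h2 : |u| * (n : ℤ) = |w| := by
        have h3 : u * (n : ℤ) = -w := by linarith
        have h4 : |u * (n : ℤ)| = |w| := by rw [h3, abs_neg]
        rwa [abs_mul, Nat.abs_cast] at h4
      have h5 : (n : ℤ) ≤ |u| * n := le_mul_of_one_le_left (Int.natCast_nonneg _) h1
      rw [hca, hca'] at hw
      linarith
  have hne1 : onLine (f i) n ≠ onLine (f j) n := by
    intro he
    rw [hoi, hoj] at he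
    have e1 := congrArg (fun P => coeff P 1) he
    have e0 := congrArg (fun P => coeff P 0) he
    simp only [hco1, hco0] at e1 e0
    obtain ⟨k1, k2⟩ := key (b - b') (c - c') (abs_sub _ _) (by linarith)
    apply hij
    have h1 : b = b' := by linarith
    have h2 : a = a' := by linarith
    have h3 : c = c' := by linarith
    rw [hi, hj, h1, h2, h3]
  have hne2 : onLine (f i) n ≠ -onLine (f j) n := by
    intro he
    rw [hoi, hoj] at he
    have e1 := congrArg (fun P => coeff P 1) he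
    have e0 := congrArg (fun P => coeff P 0) he
    simp only [coeff_neg, hco1, hco0] at e1 e0
    obtain ⟨k1, k2⟩ := key (b + b') (c + c') (abs_add_le _ _) (by linarith)
    apply hij'
    have h1 : b = -b' := by linarith
    have h2 : a = -a' := by linarith
    have h3 : c = -c' := by linarith
    rw [hi, hj, h1, h2, h3]
    simp only [map_neg]
    ring
  -- sizes
  have hn2 : 2 ≤ n := by omega
  have hsum : ∑ h ∈ F, h.natDegree ≤ K₀ + 2 := by
    have h1 : ∑ h ∈ F, h.natDegree ≤ ∑ k, (onLine (f k) n).natDegree := by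
      rw [hF]
      exact sum_image_le_of_nonneg (fun _ _ => Nat.zero_le _)
    have h2 : ∑ k, (onLine (f k) n).natDegree ≤ ∑ k, Kf k := sum_le_sum fun k _ => (hKf k n hn2).1
    omega
  have hnBB : (n : ℤ) ≤ (B : ℤ) ^ 2 := by
    have h1 : (n : ℤ) = B + 1 := by exact_mod_cast hnB
    rw [h1]
    nlinarith
  have hcoef : ∀ h ∈ F, ∀ t, |h.coeff t| ≤ (B : ℤ) ^ K := by
    intro h hh t
    rw [hF, mem_image] at hh
    obtain ⟨k, -, rfl⟩ := hh
    refine ((hKf k n hn2).2 t).trans ?_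
    calc (n : ℤ) ^ Kf k ≤ ((B : ℤ) ^ 2) ^ Kf k := pow_le_pow_left₀ (Int.natCast_nonneg _) hnBB _
      _ = (B : ℤ) ^ (2 * Kf k) := by rw [← pow_mul]
      _ ≤ (B : ℤ) ^ K := pow_le_pow_right₀ (by linarith) (by have := hKk k; omega)
  have hlead : ∀ u v : ℤ, (u - v).natAbs ≤ K → |(u - v : ℤ)| ≤ (K : ℤ) := by
    intro u v h
    rw [Int.abs_eq_natAbs]
    exact_mod_cast h
  have hc0 : ∀ v w : ℤ, 2 * v.natAbs + w.natAbs ≤ K → |v * (n : ℤ) + w| ≤ (K : ℤ) * B := by
    intro v w h
    have h1 : (n : ℤ) = B + 1 := by exact_mod_cast hnB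
    have h2 : |v * (n : ℤ) + w| ≤ |v| * n + |w| := by
      refine (abs_add_le _ _).trans ?_
      rw [abs_mul, Nat.abs_cast]
    have h3 : (2 * |v| + |w| : ℤ) ≤ K := by
      rw [Int.abs_eq_natAbs, Int.abs_eq_natAbs]
      exact_mod_cast h
    have h4 : 0 ≤ |v| := abs_nonneg _
    have h5 : 0 ≤ |w| := abs_nonneg _
    have h6 : (2 * |v| + |w|) * (B : ℤ) ≤ K * B := mul_le_mul_of_nonneg_right h3 (by linarith)
    have h7 : |v| * (n : ℤ) ≤ 2 * |v| * B := by
      rw [h1]
      nlinarith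
    have h8 : |w| ≤ |w| * B := le_mul_of_one_le_right h5 (by linarith)
    linarith
  have hmain := hB₀ B (by omega) 0
    (by
      have : (0 : ℝ) ≤ B := Nat.cast_nonneg _
      push_cast
      linarith)
    F hsum hcoef _ (hmem i) _ (hmem j) hdi hdj
    (by rw [hoi, hco1]; exact hlead _ _ (by omega))
    (by rw [hoj, hco1]; exact hlead _ _ (by omega))
    (by rw [hoi, hco0]; exact hc0 _ _ (by omega))
    (by rw [hoj, hco0]; exact hc0 _ _ (by omega)) hne1 hne2 hPA
  set ν : ℕ → ℕ := fun p => ((range p).filter (fun x : ℕ =>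
          (p : ℤ) ∣ ∏ k, MvPolynomial.eval ![(x : ℤ), (n : ℤ) - x] (f k))).card with hν
  have hν1 : ∀ p : ℕ, p.Prime → (rtT (TP F) p).card ≤ ν p := by
    intro p hp
    apply card_le_card
    intro x hx
    rw [mem_rtT] at hx
    obtain ⟨h1, h, hh, h2⟩ := hx
    rw [mem_filter, mem_range]
    refine ⟨h1, ?_⟩
    rw [hF, mem_image] at hh
    obtain ⟨k, -, rfl⟩ := hh
    rw [← hev] at h2
    exact h2.trans (dvd_prod_of_mem (fun k => MvPolynomial.eval ![(x : ℤ), (n : ℤ) - x] (f k)) (mem_univ k))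
  have hν2 : ∀ p : ℕ, p.Prime → ν p < p := by
    intro p hp
    obtain ⟨x, hx⟩ := hloc' p hp
    have hp0 : (0 : ℤ) < p := by exact_mod_cast hp.pos
    have h0 : 0 ≤ x % (p : ℤ) := Int.emod_nonneg _ hp0.ne'
    have h1 : x % (p : ℤ) < p := Int.emod_lt_of_pos _ hp0
    have h2 : (((range p).filter (fun x : ℕ =>
          (p : ℤ) ∣ ∏ k, MvPolynomial.eval ![(x : ℤ), (n : ℤ) - x] (f k)))).card < (range p).card := by
      apply card_lt_card
      rw [filter_ssubset]
      refine ⟨(x % (p : ℤ)).toNat, mem_range.2 (by omega), ?_⟩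
      rw [Prime.dvd_finsetProd_iff (Nat.prime_iff_prime_int.1 hp)]
      rintro ⟨k, -, hd⟩
      rw [hev, Int.toNat_of_nonneg h0] at hd
      apply hx k
      refine (dvd_eval_iff ?_).1 hd
      have := Int.dvd_self_sub_emod (x := x) (m := (p : ℤ))
      have e : x % (p : ℤ) - x = -(x - x % (p : ℤ)) := by ring
      rw [e]
      exact this.neg_right
    rwa [card_range] at h2
  refine ⟨?_, ?_⟩
  · apply prod_pos
    intro p hp
    have hp' := (mem_filter.1 hp).2
    have hp2 : (2 : ℝ) ≤ p := by exact_mod_cast hp'.two_le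
    apply div_pos
    · rw [sub_pos, div_lt_one (by linarith)]
      exact Nat.cast_lt.2 (hν2 p hp')
    · apply pow_pos
      rw [sub_pos, div_lt_one (by linarith)]
      linarith
  have hser := hform (κ / 2) (by positivity) n (by omega) (TP F) ν hν1 (fun p hp => (hν2 p hp).le)
  have hSTn : κ / 2 * n * ST (TP F) n ≤ κ * B * ST (TP F) B := by
    have h1 : (n : ℝ) = B + 1 := by exact_mod_cast hnB
    have h2 : (9 : ℝ) ≤ B := by exact_mod_cast hB9
    apply mul_le_mul _ (ST_anti (TP F) (by omega)) (ST_nonneg _ _) (by positivity)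
    rw [h1]
    nlinarith
  refine (hser.trans (hSTn.trans hmain)).trans (card_le_ncard n ?_ ?_)
  · intro x hx
    rw [mem_SysP] at hx
    obtain ⟨⟨h1, h2⟩, h3, h4, h5, h6⟩ := hx
    have hhalf : (1 / 2 : ℝ) * n ≤ B := by
      have h1 : (n : ℝ) = B + 1 := by exact_mod_cast hnB
      have h2 : (9 : ℝ) ≤ B := by exact_mod_cast hB9
      linarith
    have p1 := hB₁ n (by omega) B hhalf
    have p2 := hB₂ n (by omega) B hhalf
    refine ⟨h1, by omega, ?_, ?_, ?_, ?_⟩
    · rw [hev]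
      exact h3
    · rw [hev]
      exact h4
    · intro q hq
      rw [hev] at hq
      exact p1.trans (h5 q hq)
    · intro k
      obtain ⟨g1, g2⟩ := h6 _ (hmem k)
      rw [hev]
      exact ⟨g1, fun q hq => p2.trans (g2 q hq)⟩
  · intro x hx
    exact hx.2.1.le

end Pool.Agent.Results.MP_0da313_nt.ChenOnLines
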