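import Pool.Agent.H27.LF.Fin

set_option autoImplicit false

/-!
# Prime values of `L₁ L₂ + c`, `L₁`, `L₂` linear forms, on almost every line `x + y = n`

`f(x, y) = (a₁ x + b₁ y + e₁) (a₂ x + b₂ y + e₂) + c` with `|a₁ - b₁| = 1`, `a₂ ≠ b₂`, `a₁ b₂ ≠ a₂ b₁`, `c ≠ 0`. For
almost all `n` for which `f(x, n - x)` is irreducible and has no fixed prime divisor, the number of the prime values of
`f`, and of `-f`, on every interval of the part of the segment `x + y = n`, `x, y ≥ 1`, where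
`|a₂ - b₂| |L₁| < |L₂|`, is the number predicted by Hardy and Littlewood, with a constant bounded below. If this
inequality holds at a vertex, or if `|a₂ - b₂| = 1`, then `n = x + y` with `|f(x, y)|` prime in at least `κ n / log n`
ways.

The change of variables: `f(x, n - x) = ± (F(m) - F(h)) + c` with `F = |a₂ - b₂| X² - r X`, `m = ± x + m₀(n)`, `h = h(n)`;
`r` runs over the residues modulo `2 |a₂ - b₂|`. The theorem on the primes `± (F(m) - F(h)) + c` for almost all `h`,
simultaneously for all the bounds for `m ≥ 1`, is `Pool.Agent.N728.QU.finalGU` of the library; `m ≥ 1` is the region.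
-/

namespace Pool.Agent.Results.MP_0da313_nt.ProductsOfLinearForms

open Pool.Agent.H27.LF

/-- **Theorem.** -/
theorem result (P : Coef) (h₁ : |P.a₁ - P.b₁| = 1) (h₂ : P.a₂ ≠ P.b₂) (hD : P.a₁ * P.b₂ ≠ P.a₂ * P.b₁)
    (hc : P.c ≠ 0) :
    ∀ ε : ℝ, 0 < ε → ∃ κ : ℝ, 0 < κ ∧ ∀ δ : ℝ, 0 < δ → ∃ N₀ : ℕ, ∀ N : ℕ, N₀ ≤ N →
      (P.exceptions κ δ N : ℝ) ≤ ε * N :=
  main P h₁ h₂ hD hc

end Pool.Agent.Results.MP_0da313_nt.ProductsOfLinearForms
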