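import Pool.Agent.H76.NA.Sys
import Pool.Agent.Results.MP_0da313_nt.ChenOnLines

/-!
# Szemerédi's theorem, with narrow progressions, for Chen type representations on the lines x + y = n
-/

set_option autoImplicit false

namespace Pool.Agent.Results.MP_0da313_nt.SzemerediOnLines

open Finset Polynomial Pool.Agent.H76.CL Pool.Agent.H76.CP Pool.Agent.H76.NA
open Pool.Agent.Results.MP_0da313_nt.ChenOnLines (onLine eval_onLine onLine_size)

/-- **Szemerédi's theorem for Chen type representations on the lines `x + y = n`.**  Let `f₁, ..., fₘ` be integer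
polynomials in two variables such that, for all large `n`, the polynomials `f_k(x, n - x)` are irreducible and no prime
divides their product for all `x`.  Let `f_i` and `f_j` be linear and not equal up to sign.  Then there are `ε > 0` and
`r` such that for all `M` and `η > 0` there is a `C` with the following property for all large `n`.  Let `T` be the set
of the integers `0 < x < n` for which `|f_i(x, n - x)|` is a prime, `|f_j(x, n - x)|` is a prime or a product of two
primes, both `≥ n ^ (1 / 10)`, and all the `|f_k(x, n - x)|` are different from zero and have at most `r` prime factors,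
all of them `≥ n ^ ε`.  Then every subset `S` of `T` with at least `η |T|` elements contains an arithmetic progression
of `M` terms with a difference `1 ≤ d ≤ (log n) ^ C`. -/
theorem result : ∀ (m : ℕ) (f : Fin m → MvPolynomial (Fin 2) ℤ),
    (∃ N₀ : ℕ, ∀ n : ℕ, N₀ ≤ n →
      (∀ k, Irreducible (MvPolynomial.aeval ![X, C (n : ℤ) - X] (f k) : ℤ[X])) ∧
      ∀ p : ℕ, p.Prime → ¬ ∀ x : ℤ, (p : ℤ) ∣ ∏ k, MvPolynomial.eval ![x, (n : ℤ) - x] (f k)) →
    ∀ i j : Fin m, ∀ a b c a' b' c' : ℤ,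
      f i = MvPolynomial.C a * MvPolynomial.X 0 + MvPolynomial.C b * MvPolynomial.X 1 + MvPolynomial.C c →
      f j = MvPolynomial.C a' * MvPolynomial.X 0 + MvPolynomial.C b' * MvPolynomial.X 1 + MvPolynomial.C c' →
      f i ≠ f j → f i ≠ -f j →
    ∃ ε : ℝ, 0 < ε ∧ ∃ r : ℕ, ∀ (M : ℕ) (η : ℝ), 0 < η → ∃ C N : ℕ, ∀ n : ℕ, N ≤ n →
      ∀ T : Set ℕ, T = {x : ℕ | 0 < x ∧ x < n ∧ (MvPolynomial.eval ![(x : ℤ), (n : ℤ) - x] (f i)).natAbs.Prime ∧
          (MvPolynomial.eval ![(x : ℤ), (n : ℤ) - x] (f j)).natAbs.primeFactorsList.length ≤ 2 ∧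
          (∀ q ∈ (MvPolynomial.eval ![(x : ℤ), (n : ℤ) - x] (f j)).natAbs.primeFactors,
            (n : ℝ) ^ (1 / 10 : ℝ) ≤ q) ∧
          ∀ k, MvPolynomial.eval ![(x : ℤ), (n : ℤ) - x] (f k) ≠ 0 ∧
            (MvPolynomial.eval ![(x : ℤ), (n : ℤ) - x] (f k)).natAbs.primeFactorsList.length ≤ r ∧
            ∀ q ∈ (MvPolynomial.eval ![(x : ℤ), (n : ℤ) - x] (f k)).natAbs.primeFactors,
              (n : ℝ) ^ ε ≤ q} →
      ∀ S : Set ℕ, S ⊆ T → η * (T.ncard : ℝ) ≤ (S.ncard : ℝ) →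
        ∃ u d : ℕ, 1 ≤ d ∧ (d : ℝ) ≤ Real.log n ^ C ∧ ∀ t < M, u + t * d ∈ S := by
  classical
  intro m f hadm i j a b c a' b' c' hi hj hij hij'
  obtain ⟨δ, ε, hδ, hε, r, N₁, hchen⟩ :=
    Pool.Agent.Results.MP_0da313_nt.ChenOnLines.result m f hadm i j a b c a' b' c' hi hj hij hij'
  obtain ⟨N₀, hN₀⟩ := hadm
  choose Kf hKf using fun k => onLine_size (f k)
  set D : ℕ := ∑ k, Kf k with hD
  obtain ⟨c₀, hc₀, hcount⟩ := of_count m
  refine ⟨ε, hε, r, fun M η hη => ?_⟩
  obtain ⟨C', x₀, hz⟩ := szem D ε (δ * c₀) (1 / 2) hε (by positivity) (by norm_num) M η hη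
  refine ⟨C', N₀ + N₁ + x₀ + 10, ?_⟩
  intro n hn T hT
  obtain ⟨hirr, hloc⟩ := hN₀ n (by omega)
  obtain ⟨-, hm⟩ := hchen n (by omega)
  have hn2 : 2 ≤ n := by omega
  have hev : ∀ k (x : ℤ), MvPolynomial.eval ![x, (n : ℤ) - x] (f k) = (onLine (f k) n).eval x := fun k x =>
    (eval_onLine (f k) n x).symm
  set F : Finset ℤ[X] := univ.image (fun k => onLine (f k) n) with hF
  have hPA : PAdm F := by
    intro p hp
    have h1 := hloc p hp
    push Not at h1
    obtain ⟨x, hx⟩ := h1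
    refine ⟨x, fun h hh hd => hx ?_⟩
    rw [hF, mem_image] at hh
    obtain ⟨k, -, rfl⟩ := hh
    rw [← hev] at hd
    exact hd.trans (dvd_prod_of_mem (fun k => MvPolynomial.eval ![x, (n : ℤ) - x] (f k)) (mem_univ k))
  have hsum' : ∑ k, (onLine (f k) n).natDegree ≤ D := sum_le_sum fun k _ => (hKf k n hn2).1
  have hsum : ∑ h ∈ F, h.natDegree ≤ D := by
    have h1 : ∑ h ∈ F, h.natDegree ≤ ∑ k, (onLine (f k) n).natDegree := by
      rw [hF]
      exact sum_image_le_of_nonneg (fun _ _ => Nat.zero_le _)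
    omega
  set W : ℕ → Finset ℕ := fun p => (range p).filter (fun x : ℕ =>
          (p : ℤ) ∣ ∏ k, MvPolynomial.eval ![(x : ℤ), (n : ℤ) - x] (f k)) with hW
  have hWr : ∀ p : ℕ, p.Prime → W p ⊆ rtT (TP F) p := by
    intro p hp x hx
    rw [hW, mem_filter, mem_range] at hx
    rw [mem_rtT]
    refine ⟨hx.1, ?_⟩
    have hpp : Prime (p : ℤ) := Nat.prime_iff_prime_int.1 hp
    obtain ⟨k, -, hk⟩ := (hpp.dvd_finsetProd_iff _).1 hx.2
    refine ⟨onLine (f k) n, mem_image_of_mem _ (mem_univ k), ?_⟩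
    rw [← hev]
    exact hk
  have hWD : ∀ p : ℕ, p.Prime → (W p).card ≤ D := fun p hp =>
    (card_le_card (hWr p hp)).trans ((rtT_card F hPA hp).trans hsum)
  have hWp : ∀ p : ℕ, p.Prime → (W p).card < p := by
    intro p hp
    have h1 := hloc p hp
    push Not at h1
    obtain ⟨x, hx⟩ := h1
    have hp0 : (p : ℤ) ≠ 0 := by exact_mod_cast hp.ne_zero
    have h2 : (x % p).toNat < p := by
      have h3 := Int.emod_lt_of_pos x (by exact_mod_cast hp.pos : (0 : ℤ) < p)
      have h4 := Int.emod_nonneg x hp0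
      omega
    have h5 : (((x % p).toNat : ℕ) : ℤ) = x % p := Int.toNat_of_nonneg (Int.emod_nonneg x hp0)
    have h3 : W p ⊂ range p := by
      rw [Finset.ssubset_iff_of_subset (filter_subset _ _)]
      refine ⟨(x % p).toNat, mem_range.2 h2, fun hmem => hx ?_⟩
      rw [mem_filter, h5] at hmem
      have hpp : Prime (p : ℤ) := Nat.prime_iff_prime_int.1 hp
      obtain ⟨k, -, hk⟩ := (hpp.dvd_finsetProd_iff _).1 hmem.2
      rw [hev] at hk
      have h6 : (p : ℤ) ∣ x % p - x := by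
        refine ⟨-(x / p), ?_⟩
        have := Int.emod_add_mul_ediv x p
        linarith
      have h7 := (dvd_eval_iff h6).1 hk
      rw [← hev] at h7
      exact h7.trans (dvd_prod_of_mem (fun k => MvPolynomial.eval ![x, (n : ℤ) - x] (f k)) (mem_univ k))
    have := card_lt_card h3
    rwa [card_range] at this
  have hTsub : T ⊆ ((Ioc 0 n : Finset ℕ) : Set ℕ) := by
    intro x hx
    rw [hT] at hx
    rw [mem_coe, mem_Ioc]
    exact ⟨hx.1, hx.2.1.le⟩
  have hTf : T.Finite := Set.Finite.subset (finite_toSet _) hTsub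
  set U : Finset ℕ := hTf.toFinset with hU
  have hTU : T = (U : Set ℕ) := by rw [hU, Set.Finite.coe_toFinset]
  have hcardU : (T.ncard : ℝ) = U.card := by rw [hTU, Set.ncard_coe_finset]
  apply to_set hTU
  intro S hSU hSη
  refine hz n (by omega) 0 ?_ W (fun p hp => ⟨hWD p hp, hWp p hp, fun c hc => mem_range.1 (mem_filter.1 hc).1⟩) U ?_ ?_ ?_
    S hSU hSη
  · have : (0 : ℝ) ≤ n := Nat.cast_nonneg _
    push_cast
    linarith
  · intro x hxU
    have : x ∈ T := by rw [hTU]; exact mem_coe.2 hxU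
    exact mem_coe.1 (hTsub this)
  · intro x hxU p hp hpx hcon
    have hxT : x ∈ T := by rw [hTU]; exact mem_coe.2 hxU
    rw [hT] at hxT
    obtain ⟨h1, h2, -, -, -, h6⟩ := hxT
    rw [hW, mem_filter] at hcon
    have hpp : Prime (p : ℤ) := Nat.prime_iff_prime_int.1 hp
    obtain ⟨k, -, hk⟩ := (hpp.dvd_finsetProd_iff _).1 hcon.2
    rw [hev] at hk
    have h3 := (dvd_eval_iff (mod_sub x p)).1 hk
    rw [← hev] at h3
    have h5 := (h6 k).2.2 p (by
      rw [Nat.mem_primeFactors]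
      exact ⟨hp, Int.natCast_dvd.1 h3, Int.natAbs_ne_zero.2 (h6 k).1⟩)
    linarith
  · have h1 := hcount n hn2 (fun p => (W p).card) (fun p hp => (hWp p hp).le)
    have h2 : Pool.Agent.Y843.HS.VV W 0 n = ∏ p ∈ (Icc 1 n).filter Nat.Prime, (1 - ((W p).card : ℝ) / p) := by
      unfold Pool.Agent.Y843.HS.VV
      rw [Pr_eq]
    rw [h2, ← hcardU]
    set T' : Set ℕ := {x : ℕ | 0 < x ∧ x < n ∧ (MvPolynomial.eval ![(x : ℤ), (n : ℤ) - x] (f i)).natAbs.Prime ∧
          (MvPolynomial.eval ![(x : ℤ), (n : ℤ) - x] (f j)).natAbs.primeFactorsList.length ≤ 2 ∧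
          (∀ q ∈ (MvPolynomial.eval ![(x : ℤ), (n : ℤ) - x] (f j)).natAbs.primeFactors,
            (n : ℝ) ^ (1 / 10 : ℝ) ≤ q) ∧
          ∀ k, (MvPolynomial.eval ![(x : ℤ), (n : ℤ) - x] (f k)).natAbs.primeFactorsList.length ≤ r ∧
            ∀ q ∈ (MvPolynomial.eval ![(x : ℤ), (n : ℤ) - x] (f k)).natAbs.primeFactors,
              (n : ℝ) ^ ε ≤ q} with hT'
    have h3 : (T'.ncard : ℝ) ≤ T.ncard + D := by
      have h4 : T' ⊆ T ∪ ((univ.biUnion (fun k => (onLine (f k) n).roots.toFinset.image Int.toNat) : Finset ℕ) :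
          Set ℕ) := by
        intro x hx
        rw [hT'] at hx
        obtain ⟨g1, g2, g3, g4, g5, g6⟩ := hx
        by_cases hzr : ∀ k, MvPolynomial.eval ![(x : ℤ), (n : ℤ) - x] (f k) ≠ 0
        · left
          rw [hT]
          exact ⟨g1, g2, g3, g4, g5, fun k => ⟨hzr k, g6 k⟩⟩
        · right
          push Not at hzr
          obtain ⟨k, hk⟩ := hzr
          rw [mem_coe, mem_biUnion]
          refine ⟨k, mem_univ k, ?_⟩
          rw [mem_image]
          refine ⟨(x : ℤ), ?_, Int.toNat_natCast x⟩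
          rw [Multiset.mem_toFinset, mem_roots']
          refine ⟨(hirr k).ne_zero, ?_⟩
          rw [hev] at hk
          exact hk
      have h5 : (T'.ncard) ≤ T.ncard + D := by
        refine (Set.ncard_le_ncard h4 (hTf.union (finite_toSet _))).trans ((Set.ncard_union_le _ _).trans ?_)
        rw [Set.ncard_coe_finset]
        refine Nat.add_le_add_left ?_ _
        refine card_biUnion_le.trans (le_trans (sum_le_sum fun k _ => ?_) hsum')
        exact card_image_le.trans ((Multiset.toFinset_card_le _).trans (card_roots' _))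
      exact_mod_cast h5
    refine le_trans ?_ h3
    refine le_trans ?_ hm
    have h4 := mul_le_mul_of_nonneg_left h1 hδ.le
    have e1 : δ * (c₀ * n * ∏ p ∈ (Icc 1 n).filter Nat.Prime, (1 - ((W p).card : ℝ) / p)) =
      δ * c₀ * n * ∏ p ∈ (Icc 1 n).filter Nat.Prime, (1 - ((W p).card : ℝ) / p) := by ring
    have e2 : δ * ((∏ p ∈ (Icc 1 n).filter Nat.Prime, (1 - ((W p).card : ℝ) / p) / (1 - 1 / (p : ℝ)) ^ m) *
      (n / Real.log n ^ m)) = δ * (∏ p ∈ (Icc 1 n).filter Nat.Prime,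
        (1 - ((W p).card : ℝ) / p) / (1 - 1 / (p : ℝ)) ^ m) * (n / Real.log n ^ m) := by ring
    rw [e1, e2] at h4
    exact h4

end Pool.Agent.Results.MP_0da313_nt.SzemerediOnLines
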